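import Mathlib
import Pool.Agent.Lib.MP_c82530_nt.Branch

set_option autoImplicit false

namespace Pool.Agent.Results.MP_c82530_nt.AllButOneLogarithm

open Pool.Agent.Lib.MP_c82530_nt Set

/-- the numbers `exp (α 1), …, exp (α n), w` are algebraically independent over the algebraic
numbers -/
def AlgIndep {n : ℕ} (α : Fin n → ℂ) (w : ℂ) : Prop :=
  AlgebraicIndependent (integralClosure ℚ ℂ)
    (Sum.elim (fun i : Fin n => Complex.exp (α i)) (fun _ : Fin 1 => w))

/-- The exceptional logarithms for the exponents `α`: the logarithms `l` of algebraic numbers such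
that `exp (α 1), …, exp (α n), l` are not algebraically independent over the algebraic numbers. -/
def Exceptional {n : ℕ} (α : Fin n → ℂ) : Set ℂ :=
  {l | IsAlgebraic ℚ (Complex.exp l) ∧ ¬ AlgIndep α l}

/-- **Theorem** (all logarithms but one). Let `α₁, …, αₙ` be `ℚ`-linearly independent algebraic
numbers, with `ℚ`-span `A`.
(1) Each algebraic number has at most one exceptional logarithm if and only if
`exp α₁, …, exp αₙ, π` are algebraically independent over the algebraic numbers.
(2) There is a finite dimensional `ℚ`-space `V` of algebraic numbers, stable under complex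
conjugation, such that this is so whenever `V = 0` or `V` is not contained in `A`.
(3) For `n = 1` this is so for all algebraic numbers `α` outside one line `ℚ a`, `a` algebraic and
real or purely imaginary (possibly `a = 0`).
(4) If `A` contains no nonzero real and no nonzero purely imaginary number, there is at most one
exceptional logarithm on each vertical and on each horizontal line, and for each exceptional
logarithm `l ≠ 0`, `l` is neither real nor purely imaginary and `l, conj l` are algebraically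
independent over the algebraic numbers.
(5) For instance `exp (1 + i)` and `π` are algebraically independent over the algebraic numbers. -/
theorem result :
    (∀ (n : ℕ) (α : Fin n → ℂ), (∀ i, IsAlgebraic ℚ (α i)) → LinearIndependent ℚ α →
      ((∀ β : ℂ, IsAlgebraic ℚ β → {l ∈ Exceptional α | Complex.exp l = β}.Subsingleton) ↔
        AlgIndep α (Real.pi : ℂ))) ∧
    (∃ V : Submodule ℚ ℂ, FiniteDimensional ℚ V ∧ (∀ v ∈ V, IsAlgebraic ℚ v) ∧
      (∀ v ∈ V, (starRingEnd ℂ) v ∈ V) ∧
      ∀ (n : ℕ) (α : Fin n → ℂ), (∀ i, IsAlgebraic ℚ (α i)) → LinearIndependent ℚ α →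
        (V = ⊥ ∨ ¬ V ≤ Submodule.span ℚ (range α)) →
        ∀ β : ℂ, IsAlgebraic ℚ β → {l ∈ Exceptional α | Complex.exp l = β}.Subsingleton) ∧
    (∃ a : ℂ, IsAlgebraic ℚ a ∧ (a.im = 0 ∨ a.re = 0) ∧
      ∀ α : ℂ, IsAlgebraic ℚ α → (∀ q : ℚ, α ≠ q * a) →
        ∀ β : ℂ, IsAlgebraic ℚ β → {l ∈ Exceptional ![α] | Complex.exp l = β}.Subsingleton) ∧
    (∀ (n : ℕ) (α : Fin n → ℂ), (∀ i, IsAlgebraic ℚ (α i)) → LinearIndependent ℚ α →
      (∀ w ∈ Submodule.span ℚ (range α), (w.im = 0 ∨ w.re = 0) → w = 0) →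
      (∀ x : ℝ, {l ∈ Exceptional α | l.re = x}.Subsingleton) ∧
      (∀ y : ℝ, {l ∈ Exceptional α | l.im = y}.Subsingleton) ∧
      (∀ l ∈ Exceptional α, l ≠ 0 → l.im ≠ 0 ∧ l.re ≠ 0 ∧
        AlgebraicIndependent (integralClosure ℚ ℂ) ![l, (starRingEnd ℂ) l])) ∧
    AlgebraicIndependent (integralClosure ℚ ℂ) ![Complex.exp (1 + Complex.I), (Real.pi : ℂ)] := by
  have key : ∀ (n : ℕ) (α : Fin n → ℂ) (β : ℂ), IsAlgebraic ℚ β →
      {l ∈ Exceptional α | Complex.exp l = β} = {l : ℂ | Complex.exp l = β ∧ ¬ AI α l} := by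
    intro n α β hβ
    ext l
    constructor
    · rintro ⟨⟨_, h2⟩, h3⟩
      exact ⟨h3, h2⟩
    · rintro ⟨h3, h2⟩
      exact ⟨⟨by rw [h3]; exact hβ, h2⟩, h3⟩
  refine ⟨fun n α hα hlin => ?_, ?_, ?_, fun n α hα hlin hfree => ?_, ?_⟩
  · rw [show AlgIndep α (Real.pi : ℂ) = AI α (Real.pi : ℂ) from rfl, branch_pi hα hlin]
    refine forall_congr' fun β => forall_congr' fun hβ => ?_
    rw [key n α β hβ]
  · obtain ⟨V, hfd, halg, hconj, hV⟩ := branch_space
    refine ⟨V, hfd, halg, hconj, fun n α hα hlin h β hβ => ?_⟩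
    rw [key n α β hβ]
    exact (branch_pi hα hlin).1 (hV n α hα hlin h) β hβ
  · obtain ⟨a, ha, hax, h⟩ := branch_one
    refine ⟨a, ha, hax, fun α hα hne β hβ => ?_⟩
    intro l hl l' hl'
    have conv : ∀ w : ℂ, AlgebraicIndependent (integralClosure ℚ ℂ) ![Complex.exp α, w] →
        AlgIndep ![α] w := by
      intro w hw
      refine (algebraicIndependent_equiv' (finSumFinEquiv (m := 1) (n := 1)) ?_).mpr hw
      ext (i | i) <;> fin_cases i <;> rfl
    exact h α hα hne β ⟨hl.2, fun h => hl.1.2 (conv _ h)⟩ ⟨hl'.2, fun h => hl'.1.2 (conv _ h)⟩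
  · obtain ⟨h1, h2⟩ := branch_free hα hlin hfree
    refine ⟨fun x l hl l' hl' => ?_, fun x l hl l' hl' => ?_, fun l hl hl0 => h1 l hl0 hl.1 hl.2⟩
    · exact h2 l l' hl.1.1 hl'.1.1 hl.1.2 hl'.1.2 (Or.inl (hl.2.trans hl'.2.symm))
    · exact h2 l l' hl.1.1 hl'.1.1 hl.1.2 hl'.1.2 (Or.inr (hl.2.trans hl'.2.symm))
  · have hI : IsAlgebraic ℚ Complex.I := by
      refine ⟨Polynomial.X ^ 2 + 1, ?_, by simp⟩
      exact (Polynomial.monic_X_pow_add_C (1 : ℚ) two_ne_zero).ne_zero
    have hα : IsAlgebraic ℚ (1 + Complex.I) := isAlgebraic_one.add hI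
    have hne : (1 + Complex.I) ≠ 0 := by
      intro h
      have := congrArg Complex.re h
      simp at this
    have hlin : LinearIndependent ℚ (fun _ : Fin 1 => 1 + Complex.I) :=
      LinearIndependent.of_subsingleton 0 hne
    have hfree : ∀ w ∈ Submodule.span ℚ (range fun _ : Fin 1 => 1 + Complex.I),
        (w.im = 0 ∨ w.re = 0) → w = 0 := by
      intro w hw hax
      rw [range_const] at hw
      obtain ⟨q, rfl⟩ := Submodule.mem_span_singleton.1 hw
      have hq : q = 0 := by
        rcases hax with h | h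
        · simpa using h
        · simpa using h
      rw [hq, zero_smul]
    have h1 := (branch_free (fun _ => hα) hlin hfree).1 (Real.pi * Complex.I)
      (by simp [Real.pi_ne_zero]) (by rw [Complex.exp_pi_mul_I]; exact isAlgebraic_one.neg)
    have h2 : AI (fun _ : Fin 1 => 1 + Complex.I) (Real.pi : ℂ) := by
      refine (indep_iff (fun _ => hα) hlin).2 fun hmem => ?_
      have h3 : ¬ AI (fun _ : Fin 1 => 1 + Complex.I) (Real.pi * Complex.I) := fun h3 =>
        (indep_iff (fun _ => hα) hlin).1 h3 (mul_mem_cl hmem (alg_mem_cl _ hI))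
      exact (h1 h3).2.1 (by simp)
    refine (algebraicIndependent_equiv' (finSumFinEquiv (m := 1) (n := 1)) ?_).mp h2
    ext (i | i) <;> fin_cases i <;> rfl

end Pool.Agent.Results.MP_c82530_nt.AllButOneLogarithm
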