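import Mathlib
import Pool.Agent.Lib.MP_c82530_nt.AH.Fin
import Pool.Agent.Lib.MP_c82530_nt.AH.P_fc
import Pool.Agent.Lib.MP_c82530_nt.AH.P_cpt
import Pool.Agent.Lib.MP_c82530_nt.AH.P_exs
import Pool.Agent.Lib.MP_c82530_nt.AH.P_ind
import Pool.Agent.Lib.MP_c82530_nt.AH.P_prod
import Pool.Agent.Lib.MP_c82530_nt.AH.P_shf
import Pool.Agent.Lib.MP_c82530_nt.AH.P_exn
import Pool.Agent.Lib.MP_c82530_nt.AH.P_brr
import Pool.Agent.Lib.MP_c82530_nt.AC.P_infral
import Pool.Agent.Lib.MP_c82530_nt.AC.P_snoc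
import Pool.Agent.Lib.MP_c82530_nt.AC.P_free
import Pool.Agent.Lib.MP_c82530_nt.AC.P_mon
import Pool.Agent.Lib.MP_c82530_nt.AC.P_fin
import Pool.Agent.Lib.MP_c82530_nt.AC.P_lgb
import Pool.Agent.Lib.MP_c82530_nt.AC.P_aix
import Pool.Agent.Lib.MP_c82530_nt.AG.P_lo
import Pool.Agent.Lib.MP_c82530_nt.AG.P_los
import Pool.Agent.Lib.MP_c82530_nt.AG.P_zs
import Pool.Agent.Lib.MP_c82530_nt.AG.P_fra
import Pool.Agent.Lib.MP_c82530_nt.AG.P_mta
import Pool.Agent.Lib.MP_c82530_nt.AG.P_cnp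
import Pool.Agent.Lib.MP_c82530_nt.AG.P_abel
import Pool.Agent.Lib.MP_c82530_nt.AG.P_cnt
import Pool.Agent.Lib.MP_c82530_nt.AG.P_shift
import Pool.Agent.Lib.MP_c82530_nt.AG.P_toi
import Pool.Agent.Lib.MP_c82530_nt.AG.P_isl
import Pool.Agent.Lib.MP_c82530_nt.AG.P_cnz
import Pool.Agent.Lib.MP_c82530_nt.AG.P_gen
import Pool.Agent.Lib.MP_c82530_nt.AG.P_uc
import Pool.Agent.Lib.MP_c82530_nt.AG.P_lg
import Pool.Agent.Lib.MP_c82530_nt.AG.P_cls
import Pool.Agent.Lib.MP_c82530_nt.AK.Fin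
import Pool.Agent.Lib.MP_c82530_nt.AK.P_gnr
import Pool.Agent.Lib.MP_c82530_nt.AK.P_psm
import Pool.Agent.Lib.MP_c82530_nt.AK.P_spl
import Pool.Agent.Lib.MP_c82530_nt.AJ.P_dvn
import Pool.Agent.Lib.MP_c82530_nt.AC.P_swap
import Pool.Agent.Lib.MP_c82530_nt.AG.P_zex

set_option autoImplicit false

namespace Pool.Agent.Results.MP_c82530_nt.NumberFieldTuples

open Filter Topology Set NumberField IsDedekindDomain

/-- the sum of `1 / (N(I₁) ⋯ N(I_r))` over the tuples `(I₁, …, I_r) ∈ D` of ideals of number fields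
`k₁, …, k_r` whose norms are at most `x`; tuples with a zero entry contribute `0` -/
noncomputable def weight {k : ℕ → Type} [∀ j, Field (k j)] [∀ j, NumberField (k j)] {r : ℕ}
    (D : Set (∀ j : Fin r, Ideal (𝓞 (k j)))) (x : ℕ) : ℝ :=
  ∑ᶠ I ∈ {I : ∀ j : Fin r, Ideal (𝓞 (k j)) | I ∈ D ∧ ∀ j : Fin r, Ideal.absNorm (I j) ≤ x},
    ∏ j : Fin r, (Ideal.absNorm (I j) : ℝ)⁻¹

/-- a set of `r`-tuples of ideals has logarithmic density zero -/
def LogDensityZero {k : ℕ → Type} [∀ j, Field (k j)] [∀ j, NumberField (k j)] {r : ℕ}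
    (D : Set (∀ j : Fin r, Ideal (𝓞 (k j)))) : Prop :=
  Tendsto (fun x : ℕ => weight D x / (Real.log x) ^ r) atTop (𝓝 0)

/-- the number field `K` is exceptional: there are a set `A` of primes `v` of `K` such that the sum
of `1 / N(v)` over the other primes converges and a finite set `T` of complex numbers such that all
logarithms of all generators of all principal powers of the `v ∈ A` are algebraic over `ℚ(T)` -/
def Exceptional {K : Type} [Field K] [NumberField K] (σ : K →+* ℂ) : Prop :=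
  ∃ (A : Set (HeightOneSpectrum (𝓞 K))) (T : Set ℂ), T.Finite ∧
    Summable (Aᶜ.indicator (fun v : HeightOneSpectrum (𝓞 K) => (Ideal.absNorm v.asIdeal : ℝ)⁻¹)) ∧
    ∀ v ∈ A, ∀ (γ : 𝓞 K) (n : ℕ) (l : ℂ), Ideal.span {γ} = v.asIdeal ^ n →
      Complex.exp l = σ γ → IsAlgebraic (IntermediateField.adjoin ℚ T) l

/-- all primes of `K` above `p` have norm `p`; for a prime number `p` this means that all residue
degrees above `p` are `1` -/
def Splits (K : Type) [Field K] [NumberField K] (p : ℕ) : Prop :=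
  ∀ v : HeightOneSpectrum (𝓞 K), (p : 𝓞 K) ∈ v.asIdeal → Ideal.absNorm v.asIdeal = p

/-- the algebraic closure in `ℂ` of the field generated by a set `s` -/
noncomputable abbrev closureField (s : Set ℂ) : IntermediateField (IntermediateField.adjoin ℚ s) ℂ :=
  algebraicClosure (IntermediateField.adjoin ℚ s) ℂ

/-- **Theorem** (tuples). Nonzero algebraic integers `β` of number fields embedded in `ℂ` are
counted up to units, by their ideals `(β)`; `r`-tuples `(β₁, …, β_r)`, `β_j` in a number field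
`k_j`, have the weight `1 / (N(β₁) ⋯ N(β_r))`. `E` is any finitely generated field of complex
numbers.

(0) Without any hypothesis on the number fields `k₁, k₂, …`: for all `n`, `r`, `E` and `ε > 0` there
is a finite dimensional `ℚ`-space `V` of algebraic numbers such that for all tuples of principal
ideals outside a set of proportion at most `ε`, `exp α₁, …, exp αₙ` are algebraically independent
over `E(log β₁, …, log β_r)` simultaneously for all generators `β_j`, all logarithms `log β_j` and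
all `ℚ`-linearly independent algebraic `α₁, …, αₙ` whose `ℚ`-span meets `V` only in `0`.

(1) If none of the number fields `k₁, k₂, …` is exceptional then for all `n, r` and for all tuples
outside a set of logarithmic density zero, `log β₁, …, log β_r` are algebraically independent over
`E(exp α₁, …, exp αₙ)` simultaneously for all generators `β_j`, all logarithms `log β_j` and all
algebraic `α₁, …, αₙ`, and `exp α₁, …, exp αₙ, log β₁, …, log β_r` are algebraically independent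
over the algebraic numbers simultaneously for all generators, all logarithms and all `ℚ`-linearly
independent algebraic `α₁, …, αₙ`.

(2) If the number field `K` is exceptional there is an `r` such that for a positive proportion of
the `r`-tuples of ideals of `K` all entries are principal and `log β₁, …, log β_r` are algebraically
dependent for all generators and all logarithms; for every `E` and `0 < ε < 1` there is a finite
dimensional `ℚ`-space `V` of algebraic numbers such that for all large `x` and all `r` a proportion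
of at least `(1 - ε)^r` of the `r`-tuples of principal ideals of `K` of norms at most `x` has the
property in (0), for all `n` at once; and there is a finite set `T` such that the sum of `1 / p`
over the prime numbers `p` which split in `K` and whose real logarithm is not algebraic over
`ℚ(T)` converges. -/
theorem result :
    (∀ (k : ℕ → Type) [∀ j, Field (k j)] [∀ j, NumberField (k j)] (σ : ∀ j, k j →+* ℂ)
      (E : IntermediateField ℚ ℂ), E.FG → ∀ (n r : ℕ) (ε : ℝ), 0 < ε →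
      ∃ V : Submodule ℚ ℂ, FiniteDimensional ℚ V ∧ (∀ v ∈ V, IsAlgebraic ℚ v) ∧
        ∀ᶠ x : ℕ in atTop, weight {I : ∀ j : Fin r, Ideal (𝓞 (k j)) |
          ∃ (β : ∀ j : Fin r, 𝓞 (k j)) (l : Fin r → ℂ) (α : Fin n → ℂ),
            (∀ j : Fin r, Ideal.span {β j} = I j ∧ Complex.exp (l j) = σ j (β j)) ∧
            (∀ i, IsAlgebraic ℚ (α i)) ∧ LinearIndependent ℚ α ∧
            Disjoint (Submodule.span ℚ (range α)) V ∧
            ¬ AlgebraicIndependent (closureField ((E : Set ℂ) ∪ range l))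
              (fun i => Complex.exp (α i))} x ≤
          ε * weight {I : ∀ j : Fin r, Ideal (𝓞 (k j)) |
            ∀ j : Fin r, ∃ β : 𝓞 (k j), Ideal.span {β} = I j} x) ∧
    (∀ (k : ℕ → Type) [∀ j, Field (k j)] [∀ j, NumberField (k j)] (σ : ∀ j, k j →+* ℂ),
      (∀ j, ¬ Exceptional (σ j)) →
      (∀ E : IntermediateField ℚ ℂ, E.FG → ∀ n r : ℕ,
        LogDensityZero {I : ∀ j : Fin r, Ideal (𝓞 (k j)) |
          ∃ (β : ∀ j : Fin r, 𝓞 (k j)) (l : Fin r → ℂ) (α : Fin n → ℂ),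
            (∀ j : Fin r, Ideal.span {β j} = I j ∧ Complex.exp (l j) = σ j (β j)) ∧
            (∀ i, IsAlgebraic ℚ (α i)) ∧
            ¬ AlgebraicIndependent (closureField ((E : Set ℂ) ∪
              range fun i => Complex.exp (α i))) l}) ∧
      (∀ n r : ℕ, LogDensityZero {I : ∀ j : Fin r, Ideal (𝓞 (k j)) |
          ∃ (β : ∀ j : Fin r, 𝓞 (k j)) (l : Fin r → ℂ) (α : Fin n → ℂ),
            (∀ j : Fin r, Ideal.span {β j} = I j ∧ Complex.exp (l j) = σ j (β j)) ∧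
            (∀ i, IsAlgebraic ℚ (α i)) ∧ LinearIndependent ℚ α ∧
            ¬ AlgebraicIndependent (integralClosure ℚ ℂ)
              (Sum.elim (fun i => Complex.exp (α i)) l)})) ∧
    (∀ (K : Type) [Field K] [NumberField K] (σ : K →+* ℂ), Exceptional σ →
      (∃ (r : ℕ) (δ : ℝ), 0 < δ ∧ ∀ᶠ x : ℕ in atTop, δ * (Real.log x) ^ r ≤
        weight (k := fun _ => K) {I : Fin r → Ideal (𝓞 K) |
          (∀ j, ∃ β : 𝓞 K, Ideal.span {β} = I j) ∧
          ∀ (β : Fin r → 𝓞 K) (l : Fin r → ℂ),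
            (∀ j, Ideal.span {β j} = I j ∧ Complex.exp (l j) = σ (β j)) →
            ¬ AlgebraicIndependent (integralClosure ℚ ℂ) l} x) ∧
      (∀ E : IntermediateField ℚ ℂ, E.FG → ∀ ε : ℝ, 0 < ε → ε < 1 →
        ∃ V : Submodule ℚ ℂ, FiniteDimensional ℚ V ∧ (∀ v ∈ V, IsAlgebraic ℚ v) ∧
          ∀ᶠ x : ℕ in atTop, ∀ r : ℕ,
            (1 - ε) ^ r * weight (k := fun _ => K) {I : Fin r → Ideal (𝓞 K) |
              ∀ j, ∃ β : 𝓞 K, Ideal.span {β} = I j} x ≤
            weight (k := fun _ => K) {I : Fin r → Ideal (𝓞 K) |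
              (∀ j, ∃ β : 𝓞 K, Ideal.span {β} = I j) ∧
              ∀ (β : Fin r → 𝓞 K) (l : Fin r → ℂ),
              (∀ j, Ideal.span {β j} = I j ∧ Complex.exp (l j) = σ (β j)) →
              ∀ (n : ℕ) (α : Fin n → ℂ), (∀ i, IsAlgebraic ℚ (α i)) →
                LinearIndependent ℚ α → Disjoint (Submodule.span ℚ (range α)) V →
                AlgebraicIndependent (closureField ((E : Set ℂ) ∪ range l))
                  (fun i => Complex.exp (α i))} x) ∧
      ∃ T : Set ℂ, T.Finite ∧ Summable ({p : ℕ | p.Prime ∧ Splits K p ∧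
        ¬ IsAlgebraic (IntermediateField.adjoin ℚ T) ((Real.log p : ℝ) : ℂ)}.indicator
          (fun p : ℕ => (p : ℝ)⁻¹))) := by
  have hlg := Pool.Agent.Lib.MP_c82530_nt.AG.p_lg Pool.Agent.Lib.MP_c82530_nt.AG.p_uc
    Pool.Agent.Lib.MP_c82530_nt.AG.p_toi
  have hcnt := Pool.Agent.Lib.MP_c82530_nt.AG.p_cnt Pool.Agent.Lib.MP_c82530_nt.AG.p_cnp
    Pool.Agent.Lib.MP_c82530_nt.AG.p_abel
  have hisl := Pool.Agent.Lib.MP_c82530_nt.AG.p_isl Pool.Agent.Lib.MP_c82530_nt.AG.p_toi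
  have hcnz := Pool.Agent.Lib.MP_c82530_nt.AG.p_cnz Pool.Agent.Lib.MP_c82530_nt.AG.p_toi
  have hbrr := Pool.Agent.Lib.MP_c82530_nt.AH.p_brr Pool.Agent.Lib.MP_c82530_nt.AG.p_toi
  have hexn := Pool.Agent.Lib.MP_c82530_nt.AH.p_exn hlg Pool.Agent.Lib.MP_c82530_nt.AG.p_toi
  have hcls := Pool.Agent.Lib.MP_c82530_nt.AG.p_cls Pool.Agent.Lib.MP_c82530_nt.AG.p_toi
  have hlos := Pool.Agent.Lib.MP_c82530_nt.AG.p_los Pool.Agent.Lib.MP_c82530_nt.AG.p_lo
  have hfc := Pool.Agent.Lib.MP_c82530_nt.AH.p_fc Pool.Agent.Lib.MP_c82530_nt.AG.p_zs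
  have hpsm := Pool.Agent.Lib.MP_c82530_nt.AK.p_psm Pool.Agent.Lib.MP_c82530_nt.AG.p_fra
    Pool.Agent.Lib.MP_c82530_nt.AG.p_shift hcls hcnt Pool.Agent.Lib.MP_c82530_nt.AG.p_toi hcnz
  have hgnr := Pool.Agent.Lib.MP_c82530_nt.AK.p_gnr (Pool.Agent.Lib.MP_c82530_nt.AJ.p_dvn hcnt
    Pool.Agent.Lib.MP_c82530_nt.AG.p_toi hisl hcnz Pool.Agent.Lib.MP_c82530_nt.AG.p_zs
    Pool.Agent.Lib.MP_c82530_nt.AG.p_zex)
  refine ⟨?_, ?_, ?_⟩
  · intro k _ _ σ E hE n r ε hε
    exact Pool.Agent.Lib.MP_c82530_nt.AK.main0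
      Pool.Agent.Lib.MP_c82530_nt.AC.p_inf Pool.Agent.Lib.MP_c82530_nt.AC.p_ral
      hlos hfc Pool.Agent.Lib.MP_c82530_nt.AG.p_mta Pool.Agent.Lib.MP_c82530_nt.AH.p_cpt
      Pool.Agent.Lib.MP_c82530_nt.AC.p_snoc Pool.Agent.Lib.MP_c82530_nt.AC.p_free
      Pool.Agent.Lib.MP_c82530_nt.AH.p_ind Pool.Agent.Lib.MP_c82530_nt.AC.p_mon
      Pool.Agent.Lib.MP_c82530_nt.AC.p_swap Pool.Agent.Lib.MP_c82530_nt.AC.p_fge
      Pool.Agent.Lib.MP_c82530_nt.AC.p_fin Pool.Agent.Lib.MP_c82530_nt.AH.p_exs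
      Pool.Agent.Lib.MP_c82530_nt.AH.p_prod hbrr hcnt Pool.Agent.Lib.MP_c82530_nt.AG.p_toi
      hisl hcnz Pool.Agent.Lib.MP_c82530_nt.AG.p_gen hlg hgnr hpsm k σ E hE n r ε hε
  · intro k _ _ σ hno
    have h1 := fun (E : IntermediateField ℚ ℂ) (hE : E.FG) (n r : ℕ) =>
      Pool.Agent.Lib.MP_c82530_nt.AH.main1
        Pool.Agent.Lib.MP_c82530_nt.AC.p_inf Pool.Agent.Lib.MP_c82530_nt.AC.p_ral
        hlos hfc Pool.Agent.Lib.MP_c82530_nt.AG.p_mta Pool.Agent.Lib.MP_c82530_nt.AH.p_cpt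
        Pool.Agent.Lib.MP_c82530_nt.AC.p_snoc Pool.Agent.Lib.MP_c82530_nt.AC.p_free
        Pool.Agent.Lib.MP_c82530_nt.AH.p_ind Pool.Agent.Lib.MP_c82530_nt.AC.p_mon
        Pool.Agent.Lib.MP_c82530_nt.AC.p_cong Pool.Agent.Lib.MP_c82530_nt.AC.p_fge
        Pool.Agent.Lib.MP_c82530_nt.AH.p_shf hexn hbrr
        hcnt Pool.Agent.Lib.MP_c82530_nt.AG.p_toi hisl hcnz
        Pool.Agent.Lib.MP_c82530_nt.AG.p_gen hlg k σ hno E hE n r
    exact ⟨h1, Pool.Agent.Lib.MP_c82530_nt.AH.main2 Pool.Agent.Lib.MP_c82530_nt.AC.p_mon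
      Pool.Agent.Lib.MP_c82530_nt.AC.p_aix k σ Pool.Agent.Lib.MP_c82530_nt.AG.p_toi
      hisl hbrr h1⟩
  · intro K _ _ σ hex
    refine ⟨(Pool.Agent.Lib.MP_c82530_nt.AH.main3 Pool.Agent.Lib.MP_c82530_nt.AC.p_mon
      Pool.Agent.Lib.MP_c82530_nt.AC.p_dim Pool.Agent.Lib.MP_c82530_nt.AC.p_fin
      Pool.Agent.Lib.MP_c82530_nt.AH.p_exs Pool.Agent.Lib.MP_c82530_nt.AG.p_fra
      Pool.Agent.Lib.MP_c82530_nt.AH.p_prod Pool.Agent.Lib.MP_c82530_nt.AG.p_shift
      hcls hexn hbrr hcnt Pool.Agent.Lib.MP_c82530_nt.AG.p_toi hisl hcnz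
      Pool.Agent.Lib.MP_c82530_nt.AG.p_gen hlg K σ hex).1, ?_, ?_⟩
    · intro E hE ε hε hε1
      exact Pool.Agent.Lib.MP_c82530_nt.AK.main3 Pool.Agent.Lib.MP_c82530_nt.AC.p_mon
        Pool.Agent.Lib.MP_c82530_nt.AC.p_fin Pool.Agent.Lib.MP_c82530_nt.AH.p_exs
        Pool.Agent.Lib.MP_c82530_nt.AH.p_prod hexn hbrr Pool.Agent.Lib.MP_c82530_nt.AG.p_toi
        hisl Pool.Agent.Lib.MP_c82530_nt.AG.p_gen hlg hpsm K σ hex E hE ε hε hε1
    · exact Pool.Agent.Lib.MP_c82530_nt.AK.p_spl hlg Pool.Agent.Lib.MP_c82530_nt.AG.p_toi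
        Pool.Agent.Lib.MP_c82530_nt.AG.p_gen hexn K σ hex

end Pool.Agent.Results.MP_c82530_nt.NumberFieldTuples
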