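import Mathlib
import Pool.Agent.Lib.MP_c82530_nt.AJ.Main
import Pool.Agent.Lib.MP_c82530_nt.AJ.P_dvn
import Pool.Agent.Lib.MP_c82530_nt.AJ.P_spg
import Pool.Agent.Lib.MP_c82530_nt.AJ.P_mno
import Pool.Agent.Lib.MP_c82530_nt.AJ.P_cps
import Pool.Agent.Lib.MP_c82530_nt.AJ.P_nrm
import Pool.Agent.Lib.MP_c82530_nt.AJ.P_ins
import Pool.Agent.Lib.MP_c82530_nt.AG.P_lo
import Pool.Agent.Lib.MP_c82530_nt.AG.P_los
import Pool.Agent.Lib.MP_c82530_nt.AG.P_zs
import Pool.Agent.Lib.MP_c82530_nt.AG.P_two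
import Pool.Agent.Lib.MP_c82530_nt.AG.P_cut
import Pool.Agent.Lib.MP_c82530_nt.AG.P_cmk
import Pool.Agent.Lib.MP_c82530_nt.AG.P_exk
import Pool.Agent.Lib.MP_c82530_nt.AG.P_fra
import Pool.Agent.Lib.MP_c82530_nt.AG.P_mta
import Pool.Agent.Lib.MP_c82530_nt.AG.P_lim
import Pool.Agent.Lib.MP_c82530_nt.AG.P_grp
import Pool.Agent.Lib.MP_c82530_nt.AG.P_zex
import Pool.Agent.Lib.MP_c82530_nt.AG.P_pos
import Pool.Agent.Lib.MP_c82530_nt.AG.P_cnp
import Pool.Agent.Lib.MP_c82530_nt.AG.P_abel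
import Pool.Agent.Lib.MP_c82530_nt.AG.P_cnt
import Pool.Agent.Lib.MP_c82530_nt.AG.P_shift
import Pool.Agent.Lib.MP_c82530_nt.AG.P_toi
import Pool.Agent.Lib.MP_c82530_nt.AG.P_isl
import Pool.Agent.Lib.MP_c82530_nt.AG.P_cnz
import Pool.Agent.Lib.MP_c82530_nt.AG.P_gen
import Pool.Agent.Lib.MP_c82530_nt.AG.P_uc
import Pool.Agent.Lib.MP_c82530_nt.AG.P_lg
import Pool.Agent.Lib.MP_c82530_nt.AG.P_ind
import Pool.Agent.Lib.MP_c82530_nt.AG.P_conj
import Pool.Agent.Lib.MP_c82530_nt.AG.P_cls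
import Pool.Agent.Lib.MP_c82530_nt.AG.P_br
import Pool.Agent.Lib.MP_c82530_nt.AE.P_gr
import Pool.Agent.Lib.MP_c82530_nt.AE.P_adm
import Pool.Agent.Lib.MP_c82530_nt.AE.P_rrk
import Pool.Agent.Lib.MP_c82530_nt.AD.P_hv
import Pool.Agent.Lib.MP_c82530_nt.AD.P_hs
import Pool.Agent.Lib.MP_c82530_nt.AD.P_hz
import Pool.Agent.Lib.MP_c82530_nt.AD.P_ha
import Pool.Agent.Lib.MP_c82530_nt.AD.P_proj
import Pool.Agent.Lib.MP_c82530_nt.AD.P_star

set_option autoImplicit false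

namespace Pool.Agent.Results.MP_c82530_nt.OneSpaceAllFields

open Filter Topology NumberField

/-- the sum of `1 / N(I)` over the ideals `I ∈ A` of norm at most `x`; the zero ideal has norm `0`
and contributes `0` -/
noncomputable def idealSum {k : Type} [Field k] [NumberField k] (A : Set (Ideal (𝓞 k)))
    (x : ℕ) : ℝ :=
  ∑ᶠ I ∈ {I : Ideal (𝓞 k) | I ∈ A ∧ Ideal.absNorm I ≤ x}, (Ideal.absNorm I : ℝ)⁻¹

/-- the set `A` of ideals has logarithmic density zero -/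
def LogDensityZero {k : Type} [Field k] [NumberField k] (A : Set (Ideal (𝓞 k))) : Prop :=
  Tendsto (fun x : ℕ => idealSum A x / Real.log x) atTop (𝓝 0)

/-- the set `A` of ideals has positive lower logarithmic density -/
def PositiveLogDensity {k : Type} [Field k] [NumberField k] (A : Set (Ideal (𝓞 k))) : Prop :=
  ∃ δ : ℝ, 0 < δ ∧ ∀ᶠ x : ℕ in atTop, δ * Real.log x ≤ idealSum A x

/-- the numbers `exp (α 1), …, exp (α n), w` are algebraically independent over the algebraic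
numbers -/
def AlgIndep {n : ℕ} (α : Fin n → ℂ) (w : ℂ) : Prop :=
  AlgebraicIndependent (integralClosure ℚ ℂ)
    (Sum.elim (fun i : Fin n => Complex.exp (α i)) (fun _ : Fin 1 => w))

/-- **Theorem.** There is one finite dimensional `ℚ`-space `V` of algebraic numbers, stable under
complex conjugation and possibly zero, which serves for all number fields at once. For every number
field `k` with an embedding `σ` into `ℂ`, nonzero algebraic integers `β` of `k` are counted up to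
units, by means of the ideals `(β)`, weighted by `1 / N(β)`, and `C` is any finite dimensional
`ℚ`-space of complex numbers.

(0) For every `n`, for all ideals `(β)` outside a set of logarithmic density zero, the numbers
`exp (α 1), …, exp (α n), c + log β` are algebraically independent over the algebraic numbers
simultaneously for all generators `β`, all logarithms `log β` of `σ(β)`, all `c ∈ C` and all
`ℚ`-linearly independent algebraic numbers `α 1, …, α n` whose `ℚ`-span does not contain `V`; if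
`V = 0`, simultaneously for all `ℚ`-linearly independent algebraic numbers `α 1, …, α n`.

More precisely, for every `k` and `σ` there is a finite dimensional `ℚ`-space `W` of algebraic
numbers, stable under complex conjugation if `σ(k)` is, with `W = 0` or `0 ≠ V ⊆ W`, such that:

(1) if `W = 0` then for every `n` and all ideals `(β)` outside a set of logarithmic density zero the
same holds for all generators, all logarithms, all `c ∈ C` and all `ℚ`-linearly independent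
algebraic numbers `α 1, …, α n`;

(2) if `W ≠ 0` then for all ideals `(β)` outside a set of logarithmic density zero the same holds
for all generators, all logarithms, all `c ∈ C`, all `n` and all `ℚ`-linearly independent algebraic
numbers `α 1, …, α n` whose `ℚ`-span does not contain `W`;

(3) if `W ≠ 0` then the ideals `(β)` for which it fails for some generator, some logarithm, some
`c ∈ C` and some `α` whose `ℚ`-span meets `W` only in `0` have a convergent sum of `1 / N(β)`;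

(4) if `W ≠ 0` then for some finite dimensional `C` and all principal ideals `(β)` in a set of
positive lower logarithmic density, for all generators and all logarithms there is a `c ∈ C` such
that `exp (α 1), …, exp (α n), c + log β` are algebraically dependent for all `n` and all
`ℚ`-linearly independent algebraic `α 1, …, α n` whose `ℚ`-span contains `W`. -/
theorem result : ∃ V : Submodule ℚ ℂ, FiniteDimensional ℚ V ∧ (∀ v ∈ V, IsAlgebraic ℚ v) ∧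
    (∀ v ∈ V, (starRingEnd ℂ) v ∈ V) ∧
    ∀ (k : Type) [Field k] [NumberField k] (σ : k →+* ℂ),
      (∀ (n : ℕ) (C : Submodule ℚ ℂ), FiniteDimensional ℚ C →
        LogDensityZero {I : Ideal (𝓞 k) | ∃ (β : 𝓞 k) (l : ℂ), Ideal.span {β} = I ∧
          Complex.exp l = σ β ∧ ∃ c ∈ C, ∃ α : Fin n → ℂ, (∀ i, IsAlgebraic ℚ (α i)) ∧
          LinearIndependent ℚ α ∧ (V = ⊥ ∨ ¬ V ≤ Submodule.span ℚ (Set.range α)) ∧
          ¬ AlgIndep α (c + l)}) ∧
      ∃ W : Submodule ℚ ℂ, (W = ⊥ ∨ V ≠ ⊥ ∧ V ≤ W) ∧ FiniteDimensional ℚ W ∧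
      (∀ v ∈ W, IsAlgebraic ℚ v) ∧
      ((∀ x : k, ∃ y : k, σ y = (starRingEnd ℂ) (σ x)) → ∀ v ∈ W, (starRingEnd ℂ) v ∈ W) ∧
      (W = ⊥ → ∀ (n : ℕ) (C : Submodule ℚ ℂ), FiniteDimensional ℚ C →
        LogDensityZero {I : Ideal (𝓞 k) | ∃ (β : 𝓞 k) (l : ℂ), Ideal.span {β} = I ∧
          Complex.exp l = σ β ∧ ∃ c ∈ C, ∃ α : Fin n → ℂ, (∀ i, IsAlgebraic ℚ (α i)) ∧
          LinearIndependent ℚ α ∧ ¬ AlgIndep α (c + l)}) ∧
      (W ≠ ⊥ → ∀ C : Submodule ℚ ℂ, FiniteDimensional ℚ C →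
        LogDensityZero {I : Ideal (𝓞 k) | ∃ (β : 𝓞 k) (l : ℂ), Ideal.span {β} = I ∧
          Complex.exp l = σ β ∧ ∃ c ∈ C, ∃ (n : ℕ) (α : Fin n → ℂ),
          (∀ i, IsAlgebraic ℚ (α i)) ∧ LinearIndependent ℚ α ∧
          ¬ W ≤ Submodule.span ℚ (Set.range α) ∧ ¬ AlgIndep α (c + l)}) ∧
      (W ≠ ⊥ → ∀ C : Submodule ℚ ℂ, FiniteDimensional ℚ C →
        Summable ({I : Ideal (𝓞 k) | ∃ (β : 𝓞 k) (l : ℂ), Ideal.span {β} = I ∧
          Complex.exp l = σ β ∧ ∃ c ∈ C, ∃ (n : ℕ) (α : Fin n → ℂ),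
          (∀ i, IsAlgebraic ℚ (α i)) ∧ LinearIndependent ℚ α ∧
          Disjoint (Submodule.span ℚ (Set.range α)) W ∧ ¬ AlgIndep α (c + l)}.indicator
            (fun I : Ideal (𝓞 k) => (Ideal.absNorm I : ℝ)⁻¹))) ∧
      (W ≠ ⊥ → ∃ C : Submodule ℚ ℂ, FiniteDimensional ℚ C ∧
        PositiveLogDensity {I : Ideal (𝓞 k) | (∃ β : 𝓞 k, Ideal.span {β} = I) ∧
          ∀ (β : 𝓞 k) (l : ℂ), Ideal.span {β} = I → Complex.exp l = σ β →
          ∃ c ∈ C, ∀ (n : ℕ) (α : Fin n → ℂ), (∀ i, IsAlgebraic ℚ (α i)) →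
          LinearIndependent ℚ α → W ≤ Submodule.span ℚ (Set.range α) →
          ¬ AlgIndep α (c + l)}) :=
  Pool.Agent.Lib.MP_c82530_nt.AJ.main Pool.Agent.Lib.MP_c82530_nt.AG.p_zs
    (Pool.Agent.Lib.MP_c82530_nt.AG.p_los Pool.Agent.Lib.MP_c82530_nt.AG.p_lo)
    Pool.Agent.Lib.MP_c82530_nt.AG.p_cmk
    (Pool.Agent.Lib.MP_c82530_nt.AG.p_two Pool.Agent.Lib.MP_c82530_nt.AG.p_zs)
    (Pool.Agent.Lib.MP_c82530_nt.AG.p_cut Pool.Agent.Lib.MP_c82530_nt.AG.p_zs)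
    Pool.Agent.Lib.MP_c82530_nt.AG.p_mta Pool.Agent.Lib.MP_c82530_nt.AG.p_lim
    Pool.Agent.Lib.MP_c82530_nt.AG.p_exk Pool.Agent.Lib.MP_c82530_nt.AG.p_fra
    (Pool.Agent.Lib.MP_c82530_nt.AG.p_grp Pool.Agent.Lib.MP_c82530_nt.AG.p_zs)
    Pool.Agent.Lib.MP_c82530_nt.AG.p_zex
    (Pool.Agent.Lib.MP_c82530_nt.AG.p_pos Pool.Agent.Lib.MP_c82530_nt.AG.p_zs
      Pool.Agent.Lib.MP_c82530_nt.AG.p_exk Pool.Agent.Lib.MP_c82530_nt.AG.p_fra)
    Pool.Agent.Lib.MP_c82530_nt.AE.p_rrk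
    (Pool.Agent.Lib.MP_c82530_nt.AE.p_adm (Pool.Agent.Lib.MP_c82530_nt.AE.p_gr
      (Pool.Agent.Lib.MP_c82530_nt.AD.p_star
      (Pool.Agent.Lib.MP_c82530_nt.AD.p_proj (Pool.Agent.Lib.MP_c82530_nt.AD.p_ha
        Pool.Agent.Lib.MP_c82530_nt.AD.p_hv Pool.Agent.Lib.MP_c82530_nt.AD.p_hs
        Pool.Agent.Lib.MP_c82530_nt.AD.p_hz)))))
    (Pool.Agent.Lib.MP_c82530_nt.AG.p_cnt Pool.Agent.Lib.MP_c82530_nt.AG.p_cnp
      Pool.Agent.Lib.MP_c82530_nt.AG.p_abel)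
    Pool.Agent.Lib.MP_c82530_nt.AG.p_shift Pool.Agent.Lib.MP_c82530_nt.AG.p_toi
    (Pool.Agent.Lib.MP_c82530_nt.AG.p_isl Pool.Agent.Lib.MP_c82530_nt.AG.p_toi)
    (Pool.Agent.Lib.MP_c82530_nt.AG.p_cnz Pool.Agent.Lib.MP_c82530_nt.AG.p_toi)
    Pool.Agent.Lib.MP_c82530_nt.AG.p_gen
    (Pool.Agent.Lib.MP_c82530_nt.AG.p_lg Pool.Agent.Lib.MP_c82530_nt.AG.p_uc
      Pool.Agent.Lib.MP_c82530_nt.AG.p_toi)
    (Pool.Agent.Lib.MP_c82530_nt.AG.p_ind Pool.Agent.Lib.MP_c82530_nt.AG.p_toi)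
    (Pool.Agent.Lib.MP_c82530_nt.AG.p_conj (Pool.Agent.Lib.MP_c82530_nt.AG.p_lg
      Pool.Agent.Lib.MP_c82530_nt.AG.p_uc Pool.Agent.Lib.MP_c82530_nt.AG.p_toi)
      Pool.Agent.Lib.MP_c82530_nt.AG.p_toi)
    (Pool.Agent.Lib.MP_c82530_nt.AG.p_cls Pool.Agent.Lib.MP_c82530_nt.AG.p_toi)
    (Pool.Agent.Lib.MP_c82530_nt.AG.p_br Pool.Agent.Lib.MP_c82530_nt.AG.p_toi)
    (Pool.Agent.Lib.MP_c82530_nt.AJ.p_spg (Pool.Agent.Lib.MP_c82530_nt.AJ.p_dvn
      (Pool.Agent.Lib.MP_c82530_nt.AG.p_cnt Pool.Agent.Lib.MP_c82530_nt.AG.p_cnp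
        Pool.Agent.Lib.MP_c82530_nt.AG.p_abel)
      Pool.Agent.Lib.MP_c82530_nt.AG.p_toi
      (Pool.Agent.Lib.MP_c82530_nt.AG.p_isl Pool.Agent.Lib.MP_c82530_nt.AG.p_toi)
      (Pool.Agent.Lib.MP_c82530_nt.AG.p_cnz Pool.Agent.Lib.MP_c82530_nt.AG.p_toi)
      Pool.Agent.Lib.MP_c82530_nt.AG.p_zs Pool.Agent.Lib.MP_c82530_nt.AG.p_zex))
    Pool.Agent.Lib.MP_c82530_nt.AJ.p_mno Pool.Agent.Lib.MP_c82530_nt.AJ.p_cps
    Pool.Agent.Lib.MP_c82530_nt.AJ.p_ins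
    (Pool.Agent.Lib.MP_c82530_nt.AJ.p_nrm (Pool.Agent.Lib.MP_c82530_nt.AG.p_lg
      Pool.Agent.Lib.MP_c82530_nt.AG.p_uc Pool.Agent.Lib.MP_c82530_nt.AG.p_toi)
      Pool.Agent.Lib.MP_c82530_nt.AG.p_toi)

end Pool.Agent.Results.MP_c82530_nt.OneSpaceAllFields
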