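import Mathlib
import Pool.Agent.Lib.MP_c82530_nt.UR.Final

set_option autoImplicit false

namespace Pool.Agent.Results.MP_c82530_nt.UniversalTuples

/-- The `n`-tuple `a` consists of `ℚ`-linearly independent algebraic numbers. -/
def Adm {n : ℕ} (a : Fin n → ℂ) : Prop :=
  (∀ i, IsAlgebraic ℚ (a i)) ∧ LinearIndependent ℚ a

/-- The transcendence degree over `ℚ` of the ring generated by `exp a_1, …, exp a_n` and
`l_1, …, l_r`. -/
noncomputable def T {n r : ℕ} (a : Fin n → ℂ) (l : Fin r → ℂ) : Cardinal :=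
  Algebra.trdeg ℚ (Algebra.adjoin ℚ (Set.range (fun i => Complex.exp (a i)) ∪ Set.range l))

/-- **Theorem.** Let `r` be a natural number. In what follows `a` and `v` stand for `n`-tuples of
`ℚ`-linearly independent algebraic numbers, and
`T(a, l) = trdeg ℚ(exp a_1, …, exp a_n, l_1, …, l_r)`.

* `T(a, l) = n + r` if and only if `exp a_1, …, exp a_n, l_1, …, l_r` are algebraically independent
  over the algebraic numbers.
* (Minimax) For every `ℚ`-subspace `Λ` of `ℂ`, for instance the space of all logarithms of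
  algebraic numbers: if for every `l ∈ Λʳ` there is some `a` with `T(a, l) ≤ n + k`, then there is
  ONE `v` with `T(v, l) ≤ n + k` for all `l ∈ Λʳ`.
* Let `m_1, …, m_N` be complex numbers (for instance logarithms of algebraic numbers). There
  are polynomials `P n k` with rational coefficients in `r N` variables such that for all rational
  `r × N` matrices `t`, with `l(t) = (∑_j t_{ij} m_j)_i`: `(P n k)(t) = 0` if and only if some `a`
  has `T(a, l(t)) ≤ n + k`. The polynomial `P n k` is zero if and only if one `v` has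
  `T(v, l(t)) ≤ n + k` for all `t`. For `n ≥ n₀` the polynomial `P n k` does not depend on `n`. -/
theorem result (r : ℕ) :
    (∀ (n : ℕ) (a : Fin n → ℂ) (l : Fin r → ℂ), Adm a → (T a l = (n + r : ℕ) ↔
      AlgebraicIndependent (integralClosure ℚ ℂ)
        (Sum.elim (fun i => Complex.exp (a i)) l))) ∧
    (∀ (n k : ℕ) (Λ : Submodule ℚ ℂ),
      (∀ l : Fin r → ℂ, (∀ i, l i ∈ Λ) → ∃ a : Fin n → ℂ, Adm a ∧ T a l ≤ (n + k : ℕ)) →
      ∃ v : Fin n → ℂ, Adm v ∧ ∀ l : Fin r → ℂ, (∀ i, l i ∈ Λ) → T v l ≤ (n + k : ℕ)) ∧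
    ∀ (N : ℕ) (m : Fin N → ℂ), ∃ P : ℕ → ℕ → MvPolynomial (Fin r × Fin N) ℚ,
      (∀ (n k : ℕ) (t : Fin r × Fin N → ℚ), MvPolynomial.eval t (P n k) = 0 ↔
        ∃ a : Fin n → ℂ, Adm a ∧ T a (fun i => ∑ j, (t (i, j) : ℂ) * m j) ≤ (n + k : ℕ)) ∧
      (∀ n k : ℕ, P n k = 0 ↔ ∃ v : Fin n → ℂ, Adm v ∧ ∀ t : Fin r × Fin N → ℚ,
        T v (fun i => ∑ j, (t (i, j) : ℂ) * m j) ≤ (n + k : ℕ)) ∧
      ∃ n₀, ∀ n k, n₀ ≤ n → P n k = P n₀ k :=
  ⟨fun _ _ l ha => Pool.Agent.Lib.MP_c82530_nt.UR.T_eq_iff ha l,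
    fun n k Λ h => Pool.Agent.Lib.MP_c82530_nt.UR.common Λ n k r h,
    fun N m => Pool.Agent.Lib.MP_c82530_nt.UR.main N m r⟩

end Pool.Agent.Results.MP_c82530_nt.UniversalTuples
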